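import Pool.Agent.Work.MP_d68d6d_co_helper67.Main

/-!
# Blocking partitions of graphs without a `K_t` minor

For every `t` there are a number `k` and a function `f` such that every finite graph `G` without
a `K_t` minor has a partition into connected parts of at most `f (Δ(G))` vertices such that every
path which meets each part in at most one vertex has at most `k` edges. The values obtained are
`k = (2T-3)^(T-1)` and `f d = (d+1)^(3Tk)` with `T = max t 3`.

The proof builds a cop decomposition: supernodes are created one after the other inside the
components of the unassigned vertices; the skeleton of a new supernode consists of shortest paths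
from a root to the older supernodes touching the component. As soon as an older supernode `X` is
cut off from a component, the younger supernodes grow into this component, layer by layer,
until the distance of the rest to `X` (in the part of the graph younger than `X`) exceeds `k`.
A short path is analysed from its oldest supernode downwards: it meets few clusters of this
supernode, and all other supernodes it meets are adjacent to this one; as the graph has no `K_t`
minor, this recursion has depth less than `t`.
-/

namespace Pool.Agent.Results.MP_d68d6d_co.BlockingPartitions

open Pool.Agent.Work.MP_d68d6d_co_helper67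

universe u

theorem result : ∀ t : ℕ, ∃ (k : ℕ) (f : ℕ → ℕ),
    (k = (2 * max t 3 - 3) ^ (max t 3 - 1) ∧ ∀ d, f d = (d + 1) ^ (3 * max t 3 * k)) ∧
    ∀ (V : Type u) [Fintype V] (G : SimpleGraph V) [DecidableRel G.Adj],
      ¬ HasCompleteMinor G t →
      ∃ P : Set (Set V), Setoid.IsPartition P ∧
        (∀ A ∈ P, (G.induce A).Connected) ∧
        (∀ A ∈ P, A.ncard ≤ f G.maxDegree) ∧
        ∀ (a b : V) (w : G.Walk a b), w.IsPath →
          (∀ A ∈ P, ∀ x ∈ w.support, ∀ y ∈ w.support, x ∈ A → y ∈ A → x = y) →
          w.length ≤ k := by
  intro t
  refine ⟨(2 * max t 3 - 3) ^ (max t 3 - 1),
    fun d => (d + 1) ^ (3 * max t 3 * (2 * max t 3 - 3) ^ (max t 3 - 1)),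
    ⟨rfl, fun d => rfl⟩, ?_⟩
  intro V _ G _ hG
  exact main_of_ge (le_max_right t 3) V G (fun h => hG (minor_mono (le_max_left t 3) h))

end Pool.Agent.Results.MP_d68d6d_co.BlockingPartitions
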